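import Pool.Agent.W_MP_69fa08_nt.Taylor

/-!
# Trigonometric inequalities for the horseshoe theorem
-/

namespace HsI

open Real PowTri

noncomputable def soft (sg ta : ℝ) : ℝ := cos ((ta + sg) / 2) / cos (π / 6 + (ta - sg) / 2)

noncomputable def KK (sg ta W : ℝ) : ℝ :=
  soft sg ta - sin sg + sin ta - ta * cos ta - (π / 3 - sg) * cos sg + W * (cos ta - cos sg)

noncomputable def fT (c x y : ℝ) : ℝ :=
  cos ((x - y) / 2) / cos (π / 6 + (x + y) / 2) - π / 3 - (π / 3 + c) * (2 - cos x - cos y) +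
    (sin x - x * cos x) + (sin y - y * cos y)

theorem s3_lo : 1.732 < √3 := by
  rw [Real.lt_sqrt (by norm_num)]; norm_num
theorem s3_hi : √3 < 1.7321 := by
  rw [Real.sqrt_lt' (by norm_num)]; norm_num
theorem s3_sq : √3 * √3 = 3 := Real.mul_self_sqrt (by norm_num)

theorem pi6_hi : π / 6 < 0.5236 := by have := Real.pi_lt_d4; linarith
theorem pi6_lo : 0.52358 < π / 6 := by have := Real.pi_gt_d4; linarith

/-- `x cos x ≤ sin x` -/
theorem x_cos_le {x : ℝ} (h0 : 0 ≤ x) (h1 : x ≤ π / 2) : x * cos x ≤ sin x := by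
  rcases eq_or_lt_of_le h1 with h | h
  · rw [h, cos_pi_div_two, sin_pi_div_two]; simp
  · have hc : 0 < cos x := cos_pos_of_mem_Ioo ⟨by linarith [pi_pos], h⟩
    have := le_tan h0 h
    rw [tan_eq_sin_div_cos, le_div_iff₀ hc] at this
    exact this

/-- (I6) -/
theorem I6 {t v : ℝ} (ht : √3 - 1 ≤ t) (h0 : 0 ≤ v) (h1 : v ≤ π / 6) :
    sin v - v * cos v ≤ t * (1 - cos v) := by
  have hp := pi6_hi
  have h3 := s3_lo
  have hv : v ≤ 0.5236 := by linarith
  have a1 := sin_le5 h0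
  have a2 := cos_ge6 h0
  have a3 := cos_le4 h0
  have hc1 : 0 ≤ 1 - cos v := by linarith [cos_le_one v]
  have h4 : 0.732 * (1 - cos v) ≤ t * (1 - cos v) :=
    mul_le_mul_of_nonneg_right (by linarith) hc1
  have h5 : v * (1 - v ^ 2 / 2 + v ^ 4 / 24 - v ^ 6 / 720) ≤ v * cos v :=
    mul_le_mul_of_nonneg_left a2 h0
  have key : v - v ^ 3 / 6 + v ^ 5 / 120 - v * (1 - v ^ 2 / 2 + v ^ 4 / 24 - v ^ 6 / 720) ≤
      0.732 * (v ^ 2 / 2 - v ^ 4 / 24) := by
    have e : 0.732 * (v ^ 2 / 2 - v ^ 4 / 24) -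
        (v - v ^ 3 / 6 + v ^ 5 / 120 - v * (1 - v ^ 2 / 2 + v ^ 4 / 24 - v ^ 6 / 720)) =
        v ^ 2 * (0.366 - 0.0305 * v ^ 2 - v / 3 + v ^ 3 / 30 - v ^ 5 / 720) := by ring
    have h6 : 0 ≤ 0.366 - 0.0305 * v ^ 2 - v / 3 + v ^ 3 / 30 - v ^ 5 / 720 := by
      have : v ^ 2 ≤ 0.5236 ^ 2 := pow_le_pow_left₀ h0 hv 2
      have : v ^ 5 ≤ 0.5236 ^ 5 := pow_le_pow_left₀ h0 hv 5
      have : 0 ≤ v ^ 3 := by positivity
      norm_num at *
      linarith
    nlinarith [mul_nonneg (sq_nonneg v) h6]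
  linarith

/-- (I7) -/
theorem I7 {t z sg : ℝ} (ht : √3 - 1 ≤ t) (hz : 0 ≤ z) (h0 : 0 ≤ sg) (h1 : sg ≤ π / 6) :
    0 ≤ sin sg - sg + (z + t) * (1 - cos sg) := by
  have hp := pi6_hi
  have h3 := s3_lo
  have hc1 : 0 ≤ 1 - cos sg := by linarith [cos_le_one sg]
  have h4 : 0.732 * (1 - cos sg) ≤ (z + t) * (1 - cos sg) :=
    mul_le_mul_of_nonneg_right (by linarith) hc1
  have a3 := cos_le4 h0
  have a4 := sin_ge7 h0
  have hv : sg ≤ 0.5236 := by linarith
  have h6 : 0 ≤ 0.366 - 0.0305 * sg ^ 2 - sg / 6 + sg ^ 3 / 120 - sg ^ 5 / 5040 := by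
    have : sg ^ 2 ≤ 0.5236 ^ 2 := pow_le_pow_left₀ h0 hv 2
    have : sg ^ 5 ≤ 0.5236 ^ 5 := pow_le_pow_left₀ h0 hv 5
    have : 0 ≤ sg ^ 3 := by positivity
    norm_num at *
    linarith
  nlinarith [mul_nonneg (sq_nonneg sg) h6]

/-- (I8): `h(v) + v cos sg ≥ 1` -/
theorem I8 {b v sg : ℝ} (hb : 0 < b) (hb1 : b ≤ π / 6) (h0 : 0 ≤ v) (h1 : v ≤ b) (hs : 0 ≤ sg)
    (hs1 : sg ≤ π / 6) : 1 ≤ 1 - (1 - cos v) / sin b + v * cos sg := by
  have hp := pi6_hi
  have h3 := s3_lo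
  have hsb : 0 < sin b := sin_pos_of_pos_of_lt_pi hb (by linarith [pi_pos])
  have hcs : 0.866 ≤ cos sg := by
    have : cos (π / 6) ≤ cos sg := cos_le_cos_of_nonneg_of_le_pi hs (by linarith [pi_pos]) hs1
    rw [cos_pi_div_six] at this
    linarith
  have h4 : 1 - cos v ≤ v ^ 2 / 2 := by linarith [one_sub_sq_div_two_le_cos (x := v)]
  have h5 : 0.9 * b ≤ sin b := by
    have h5' := sin_ge7 hb.le
    have hb2 : b ≤ 0.5236 := by linarith
    have h6 : 0 ≤ 0.1 - b ^ 2 / 6 + b ^ 4 / 120 - b ^ 6 / 5040 := by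
      have : b ^ 2 ≤ 0.5236 ^ 2 := pow_le_pow_left₀ hb.le hb2 2
      have : b ^ 6 ≤ 0.5236 ^ 6 := pow_le_pow_left₀ hb.le hb2 6
      have : 0 ≤ b ^ 4 := by positivity
      norm_num at *
      linarith
    nlinarith [mul_nonneg hb.le h6]
  have h7 : (1 - cos v) / sin b ≤ v * cos sg := by
    rw [div_le_iff₀ hsb]
    have h8 : v * 0.866 * (0.9 * b) ≤ v * cos sg * sin b := by
      apply mul_le_mul _ h5 (by positivity) (mul_nonneg h0 (by linarith))
      exact mul_le_mul_of_nonneg_left hcs h0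
    have h9 : v ^ 2 / 2 ≤ v * 0.866 * (0.9 * b) := by nlinarith [mul_nonneg h0 h0, mul_nonneg h0 hb.le, mul_le_mul_of_nonneg_left h1 h0]
    linarith
  linarith

/-- auxiliary: `1 - cos s <= s^2/2`, and `(pi/3 - s + c) sin s <= 1` for `c <= 1` replaced -/
theorem I4 {c s : ℝ} (hc : 0 ≤ c) (h0 : 0 ≤ s) (h1 : s ≤ π / 6) :
    0.04 ≤ 1 + π / 6 - s + c - sin s - (π / 3 - s + c) * cos s := by
  have hp := pi6_hi
  have hp' := pi6_lo
  have h3 := s3_lo
  have hv : s ≤ 0.5236 := by linarith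
  have a1 := sin_le5 h0
  have a3 := cos_le4 h0
  have hc1 : 0 ≤ 1 - cos s := by linarith [cos_le_one s]
  have h4 : 0 ≤ c * (1 - cos s) := mul_nonneg hc hc1
  have h5 : (π / 3 - s) * cos s ≤ (π / 3 - s) * (1 - s ^ 2 / 2 + s ^ 4 / 24) :=
    mul_le_mul_of_nonneg_left a3 (by linarith)
  have h6 : (π / 3 - s) * (1 - s ^ 2 / 2 + s ^ 4 / 24) ≤ π / 3 - s -
      (1.04716 - s) * (s ^ 2 / 2 - s ^ 4 / 24) := by
    have h7 : 0 ≤ s ^ 2 / 2 - s ^ 4 / 24 := by
      have : s ^ 2 ≤ 1 := by nlinarith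
      nlinarith [sq_nonneg s]
    nlinarith [mul_nonneg (sub_nonneg.2 (show (1.04716 : ℝ) ≤ π / 3 by linarith)) h7]
  have h8 : s - s ^ 3 / 6 + s ^ 5 / 120 + 0.04 ≤ 1 + π / 6 - π / 3 +
      (1.04716 - s) * (s ^ 2 / 2 - s ^ 4 / 24) := by
    have h9 : 1 + π / 6 - π / 3 ≥ 0.4764 := by linarith
    have h10 : s - s ^ 3 / 6 + s ^ 5 / 120 + 0.04 ≤ 0.4764 +
      (1.04716 - s) * (s ^ 2 / 2 - s ^ 4 / 24) := by
      nlinarith [mul_nonneg h0 (sub_nonneg.2 hv), mul_nonneg (mul_nonneg h0 h0) (sub_nonneg.2 hv), mul_nonneg (pow_nonneg h0 3) (sub_nonneg.2 hv), mul_nonneg (pow_nonneg h0 4) (sub_nonneg.2 hv), sq_nonneg (s - 0.5236)]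
    linarith
  linarith

/-- a concave function is nonnegative on an interval if it is so at the ends -/
theorem nonneg_of_concave {f : ℝ → ℝ} {a b x : ℝ} (hf : ConcaveOn ℝ (Set.Icc a b) f)
    (ha : 0 ≤ f a) (hb : 0 ≤ f b) (h1 : a ≤ x) (h2 : x ≤ b) : 0 ≤ f x := by
  have hab : a ≤ b := h1.trans h2
  have := hf.min_le_of_mem_Icc (Set.left_mem_Icc.2 hab) (Set.right_mem_Icc.2 hab) ⟨h1, h2⟩
  exact le_trans (le_min ha hb) this

theorem concave_sin {a b : ℝ} (ha : 0 ≤ a) (hb : b ≤ π / 6) :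
    ConcaveOn ℝ (Set.Icc a b) sin :=
  strictConcaveOn_sin_Icc.concaveOn.subset (Set.Icc_subset_Icc ha (by linarith [pi_pos]))
    (convex_Icc a b)

theorem concave_cos {a b : ℝ} (ha : 0 ≤ a) (hb : b ≤ π / 6) :
    ConcaveOn ℝ (Set.Icc a b) cos :=
  strictConcaveOn_cos_Icc.concaveOn.subset
    (Set.Icc_subset_Icc (by linarith [pi_pos]) (by linarith [pi_pos])) (convex_Icc a b)

theorem concave_lin (p q a b : ℝ) : ConcaveOn ℝ (Set.Icc a b) (fun x => p * x + q) := by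
  refine ⟨convex_Icc a b, ?_⟩
  intro x _ y _ u v _ _ huv
  simp only [smul_eq_mul]
  have : q = u * q + v * q := by rw [← add_mul, huv, one_mul]
  nlinarith

/-- (I5a) -/
theorem I5a {c e s : ℝ} (hc : 1 ≤ c) (h0 : 0 ≤ s) (h1 : s ≤ e) (h2 : e ≤ π / 6) :
    0 ≤ sin e - sin s - (1 - cos e) * (π / 6) + (π / 2 - e - s + c) * (1 - cos s) := by
  have hp := pi6_hi
  have hp' := pi6_lo
  have h3 := s3_lo
  have hv : s ≤ 0.5236 := by linarith
  have hc1 : 0 ≤ 1 - cos s := by linarith [cos_le_one s]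
  have hf : ConcaveOn ℝ (Set.Icc s (π / 6)) (fun e => sin e + (π / 6) * cos e +
      (-(1 - cos s) * e + (- sin s - π / 6 + (π / 2 - s + c) * (1 - cos s)))) := by
    refine ((concave_sin h0 le_rfl).add ((concave_cos h0 le_rfl).smul
      (by positivity : (0 : ℝ) ≤ π / 6))).add (concave_lin _ _ _ _)
  have := nonneg_of_concave hf ?_ ?_ h1 h2
  · linarith
  · have : 0 ≤ (1 - cos s) * (π / 3 - 2 * s + c) := mul_nonneg hc1 (by linarith)
    linarith
  · rw [sin_pi_div_six, cos_pi_div_six]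
    have a1 := sin_le5 h0
    have a3 := cos_le4 h0
    have h4 : (2.0471 - s) * (1 - cos s) ≤ (π / 3 - s + c) * (1 - cos s) :=
      mul_le_mul_of_nonneg_right (by linarith) hc1
    have h5 : (2.0471 - s) * (s ^ 2 / 2 - s ^ 4 / 24) ≤ (2.0471 - s) * (1 - cos s) :=
      mul_le_mul_of_nonneg_left (by linarith) (by linarith)
    have h6 : (π / 6) * (√3 / 2) ≥ 0.4534 - 0.0001 := by nlinarith
    have h7 : s - s ^ 3 / 6 + s ^ 5 / 120 ≤ 1 / 2 + 0.4533 - 0.5236 +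
        (2.0471 - s) * (s ^ 2 / 2 - s ^ 4 / 24) := by
      nlinarith [mul_nonneg h0 (sub_nonneg.2 hv), mul_nonneg (mul_nonneg h0 h0) (sub_nonneg.2 hv),
        mul_nonneg (pow_nonneg h0 3) (sub_nonneg.2 hv),
        mul_nonneg (pow_nonneg h0 4) (sub_nonneg.2 hv), sq_nonneg (s - 0.5236)]
    linarith

/-- (I5b) -/
theorem I5b {c e s : ℝ} (hc : 1 ≤ c) (h0 : 0 ≤ s) (h1 : s ≤ e) (h2 : e ≤ π / 6) :
    0 ≤ 2 * sin e - e - sin s + (π / 2 - e - s + c) * (1 - cos s) := by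
  have hp := pi6_hi
  have hp' := pi6_lo
  have h3 := s3_lo
  have hv : s ≤ 0.5236 := by linarith
  have hc1 : 0 ≤ 1 - cos s := by linarith [cos_le_one s]
  have a3 := cos_le4 h0
  have hf : ConcaveOn ℝ (Set.Icc s (π / 6)) (fun e => 2 * sin e +
      ((-1 - (1 - cos s)) * e + (- sin s + (π / 2 - s + c) * (1 - cos s)))) := by
    exact ((concave_sin h0 le_rfl).smul (by norm_num : (0 : ℝ) ≤ 2)).add (concave_lin _ _ _ _)
  have := nonneg_of_concave hf ?_ ?_ h1 h2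
  · linarith
  · have a4 := sin_ge7 h0
    have h4 : 1.5 * (1 - cos s) ≤ (π / 2 - 2 * s + c) * (1 - cos s) :=
      mul_le_mul_of_nonneg_right (by linarith) hc1
    have h6 : 0 ≤ 0.75 - 0.0625 * s ^ 2 - s / 6 + s ^ 3 / 120 - s ^ 5 / 5040 := by
      have : s ^ 2 ≤ 0.5236 ^ 2 := pow_le_pow_left₀ h0 hv 2
      have : s ^ 5 ≤ 0.5236 ^ 5 := pow_le_pow_left₀ h0 hv 5
      have : 0 ≤ s ^ 3 := by positivity
      norm_num at *
      linarith
    nlinarith [mul_nonneg (sq_nonneg s) h6]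
  · rw [sin_pi_div_six]
    have a1 := sin_le5 h0
    have h4 : (2.0471 - s) * (1 - cos s) ≤ (π / 3 - s + c) * (1 - cos s) :=
      mul_le_mul_of_nonneg_right (by linarith) hc1
    have h5 : (2.0471 - s) * (s ^ 2 / 2 - s ^ 4 / 24) ≤ (2.0471 - s) * (1 - cos s) :=
      mul_le_mul_of_nonneg_left (by linarith) (by linarith)
    have h7 : s - s ^ 3 / 6 + s ^ 5 / 120 ≤ 1 - 0.5236 +
        (2.0471 - s) * (s ^ 2 / 2 - s ^ 4 / 24) := by
      nlinarith [mul_nonneg h0 (sub_nonneg.2 hv), mul_nonneg (mul_nonneg h0 h0) (sub_nonneg.2 hv),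
        mul_nonneg (pow_nonneg h0 3) (sub_nonneg.2 hv),
        mul_nonneg (pow_nonneg h0 4) (sub_nonneg.2 hv), sq_nonneg (s - 0.5236)]
    linarith

/-- the difference of two values of `soft` -/
theorem soft_diff {a b c' : ℝ} (hb : cos b ≠ 0) (hc : cos (b + c') ≠ 0) :
    cos (a + c') / cos (b + c') - cos a / cos b = sin (b - a) * sin c' / (cos b * cos (b + c')) := by
  rw [div_sub_div _ _ hc hb, mul_comm (cos b)]
  congr 1
  rw [cos_add, cos_add, sin_sub]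
  have h1 := sin_sq_add_cos_sq c'
  ring

theorem soft_diff' {a b c' : ℝ} (hb : cos b ≠ 0) (hc : cos (b + c') ≠ 0) :
    cos (a - c') / cos (b + c') - cos a / cos b = sin (a + b) * sin c' / (cos b * cos (b + c')) := by
  rw [div_sub_div _ _ hc hb, mul_comm (cos b)]
  congr 1
  rw [cos_add, cos_sub, sin_add]
  have h1 := sin_sq_add_cos_sq c'
  ring

theorem cos_pos' {x : ℝ} (h0 : 0 ≤ x) (h1 : x < π / 2) : 0 < cos x :=
  cos_pos_of_mem_Ioo ⟨by linarith [pi_pos], h1⟩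

theorem f1_poly {v : ℝ} (h0 : 0 ≤ v) (hv : v ≤ 0.5236) :
    (1.0512 - 0.5236 * v ^ 2 + 0.36 * v ^ 3) * (v / 4 + (1 - v ^ 2 / 8) * 0.86605) ≤
      1 - v ^ 2 / 8 := by
  have hv3 : v ^ 3 ≤ 0.5236 * v ^ 2 := by nlinarith [sq_nonneg v]
  have hv4 : v ^ 4 ≤ 0.5236 * v ^ 3 := by
    have : 0 ≤ v ^ 3 := by positivity
    nlinarith
  have hv5 : 0 ≤ v ^ 5 := by positivity
  have hq := sq_nonneg (v - 0.43)
  linarith

/-- upper bound for `sin v + (pi/3 - v) cos v` -/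
theorem P_le {v : ℝ} (h0 : 0 ≤ v) (h1 : v ≤ π / 6) :
    sin v + (π / 3 - v) * cos v ≤ 1.0472 - 0.5236 * v ^ 2 + 0.36 * v ^ 3 := by
  have hp := pi6_hi
  have hv : v ≤ 0.5236 := by linarith
  have a1 := sin_le5 h0
  have a2 := one_sub_sq_div_two_le_cos (x := v)
  have a3 := cos_le4 h0
  have h4 : π / 3 * cos v ≤ π / 3 * (1 - v ^ 2 / 2 + v ^ 4 / 24) :=
    mul_le_mul_of_nonneg_left a3 (by positivity)
  have h5 : v * (1 - v ^ 2 / 2) ≤ v * cos v := mul_le_mul_of_nonneg_left a2 h0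
  have h6 : 0 ≤ 1 - v ^ 2 / 2 + v ^ 4 / 24 := by
    have : v ^ 2 ≤ 0.5236 ^ 2 := pow_le_pow_left₀ h0 hv 2
    have : 0 ≤ v ^ 4 := by positivity
    norm_num at *
    linarith
  have h7 : π / 3 * (1 - v ^ 2 / 2 + v ^ 4 / 24) ≤ 1.0472 * (1 - v ^ 2 / 2 + v ^ 4 / 24) :=
    mul_le_mul_of_nonneg_right (by linarith) h6
  have h3 : 0 ≤ v ^ 3 := by positivity
  have h8 : v ^ 4 ≤ 0.5236 * v ^ 3 := by nlinarith
  have h9 : v ^ 5 ≤ 0.3 * v ^ 3 := by
    have h10 : v ^ 2 ≤ 0.3 := by nlinarith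
    nlinarith
  linarith only [a1, h4, h5, h7, h8, h9, h3]

/-- `f1 >= 1/250` -/
theorem f1_nonneg {v : ℝ} (h0 : 0 ≤ v) (h1 : v ≤ π / 6) :
    1 / 250 ≤ cos (v / 2) / cos (π / 6 - v / 2) - sin v - (π / 3 - v) * cos v := by
  have hp := pi6_hi
  have hpp := pi_pos
  have h3' := s3_hi
  have hv : v ≤ 0.5236 := by linarith
  have hc : 0 < cos (π / 6 - v / 2) := cos_pos' (by linarith) (by linarith)
  have hP1 := P_le h0 h1
  have hP0 : 0 ≤ sin v + (π / 3 - v) * cos v := by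
    have : 0 ≤ sin v := sin_nonneg_of_nonneg_of_le_pi h0 (by linarith)
    have h4 : 0 < cos v := cos_pos' h0 (by linarith)
    have : 0 ≤ (π / 3 - v) * cos v := mul_nonneg (by linarith) h4.le
    linarith
  have e : 1 / 250 ≤ cos (v / 2) / cos (π / 6 - v / 2) - sin v - (π / 3 - v) * cos v ↔
      (sin v + (π / 3 - v) * cos v) + 1 / 250 ≤ cos (v / 2) / cos (π / 6 - v / 2) := by
    constructor <;> intro h <;> linarith
  rw [e, le_div_iff₀ hc]
  replace hP1 : sin v + (π / 3 - v) * cos v + 1 / 250 ≤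
      1.0512 - 0.5236 * v ^ 2 + 0.36 * v ^ 3 := by linarith
  replace hP0 : 0 ≤ sin v + (π / 3 - v) * cos v + 1 / 250 := by linarith
  generalize sin v + (π / 3 - v) * cos v + 1 / 250 = P at hP1 hP0
  have b1 := one_sub_sq_div_two_le_cos (x := v / 2)
  have b2 : sin (v / 2) ≤ v / 2 := sin_le (by linarith)
  have hcv : 0 < cos (v / 2) := cos_pos' (by linarith) (by linarith)
  rw [cos_sub, cos_pi_div_six, sin_pi_div_six]
  have hpoly := f1_poly h0 hv
  have hv0 : 0 ≤ v / 4 + (1 - v ^ 2 / 8) * 0.86605 := by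
    have : v ^ 2 ≤ 0.5236 ^ 2 := pow_le_pow_left₀ h0 hv 2
    norm_num at *
    linarith
  have h10 := mul_le_mul_of_nonneg_right hP1 hv0
  have h11 : P * (v / 4 + (1 - v ^ 2 / 8) * 0.86605) ≤ 1 - v ^ 2 / 8 := h10.trans hpoly
  have h5 : 0 ≤ 1 - P * 0.86605 := by
    have h12 : P * 0.86605 ≤ (1.0512 - 0.5236 * v ^ 2 + 0.36 * v ^ 3) * 0.86605 :=
      mul_le_mul_of_nonneg_right hP1 (by norm_num)
    have h13 : 0.36 * v ^ 3 ≤ 0.5236 * v ^ 2 := by nlinarith [sq_nonneg v]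
    linarith only [h12, h13]
  have h6 := mul_le_mul_of_nonneg_right b1 h5
  have h7 := mul_le_mul_of_nonneg_left b2 (show (0 : ℝ) ≤ P / 2 by linarith)
  have h4 : P * √3 / 2 ≤ P * 0.86605 := by
    have := mul_le_mul_of_nonneg_left h3'.le hP0
    linarith
  have h8 := mul_le_mul_of_nonneg_right h4 hcv.le
  linarith only [h6, h7, h8, h11]

theorem K1 {sg ta W : ℝ} (h0 : 0 ≤ ta) (h1 : ta ≤ sg) (h2 : sg ≤ π / 6) (hW : 0 ≤ W) :
    1 / 250 ≤ KK sg ta W := by
  have hp := pi6_hi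
  have hpp := pi_pos
  have f1 := f1_nonneg (h0.trans h1) h2
  have a1 := x_cos_le h0 (by linarith)
  have a2 : cos sg ≤ cos ta := cos_le_cos_of_nonneg_of_le_pi h0 (by linarith) h1
  have a3 : 0 ≤ W * (cos ta - cos sg) := mul_nonneg hW (by linarith)
  have a4 : cos (sg / 2) / cos (π / 6 - sg / 2) ≤ soft sg ta := by
    have hb : 0 < cos (π / 6 - sg / 2) := cos_pos' (by linarith) (by linarith)
    have hc : 0 < cos (π / 6 - sg / 2 + ta / 2) := cos_pos' (by linarith) (by linarith)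
    have := soft_diff (a := sg / 2) (b := π / 6 - sg / 2) (c' := ta / 2) hb.ne' hc.ne'
    have h5 : 0 ≤ sin (π / 6 - sg / 2 - sg / 2) * sin (ta / 2) /
        (cos (π / 6 - sg / 2) * cos (π / 6 - sg / 2 + ta / 2)) := by
      refine div_nonneg (mul_nonneg ?_ ?_) (mul_pos hb hc).le
      · exact sin_nonneg_of_nonneg_of_le_pi (by linarith) (by linarith)
      · exact sin_nonneg_of_nonneg_of_le_pi (by linarith) (by linarith)
    have e : soft sg ta = cos (sg / 2 + ta / 2) / cos (π / 6 - sg / 2 + ta / 2) := by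
      rw [soft]; congr 2 <;> ring
    rw [e]
    linarith
  rw [KK]
  linarith

theorem s3_lo' : 1.73205 < √3 := by
  rw [Real.lt_sqrt (by norm_num)]; norm_num
theorem s3_hi' : √3 < 1.73206 := by
  rw [Real.sqrt_lt' (by norm_num)]; norm_num

theorem K2_poly {v : ℝ} (h0 : 0 ≤ v) (hv : v ≤ 0.5236) :
    1 / 250 ≤ 0.1074 * (0.866025 * (1 - v ^ 2 / 2) + 1 / 2 * (v - v ^ 3 / 6)) +
      2 / 3 * (v * (v - v ^ 3 / 6)) -
      (0.73206 + 2 * v) * (1 / 2 * (v - v ^ 3 / 6 + v ^ 5 / 120) -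
        0.866025 * (v ^ 2 / 2 - v ^ 4 / 24)) := by
  have h1 := mul_nonneg (sq_nonneg (v - 0.36)) (show 0 ≤ 0.911 * v + 0.593 by linarith)
  have h3 : 0 ≤ v ^ 3 := by positivity
  have h4 : 0 ≤ v ^ 4 := by positivity
  have h5 : 0 ≤ v ^ 5 := by positivity
  have h44 : v ^ 4 ≤ 0.5236 * v ^ 3 := by nlinarith
  have h55 : v ^ 5 ≤ 0.5236 * v ^ 4 := by nlinarith
  have h66 : v ^ 6 ≤ 0.5236 * v ^ 5 := by nlinarith
  linarith

theorem K2_end {v : ℝ} (h0 : 0 ≤ v) (h1 : v ≤ π / 6) :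
    1 / 250 ≤ (2 / √3 - π / 3) * cos (π / 6 - v) + 2 / 3 * sin v * v -
      (√3 - 1 + 2 * v) * (cos (π / 6 - v) - cos (π / 6)) := by
  have hp := pi6_hi
  have hpp := pi_pos
  have h3 := s3_lo'
  have h3' := s3_hi'
  have hv : v ≤ 0.5236 := by linarith
  have a1 := sin_le5 h0
  have a2 := one_sub_sq_div_two_le_cos (x := v)
  have a3 := cos_le4 h0
  have a4 : v - v ^ 3 / 6 ≤ sin v := by
    have := sin_ge7 h0
    have h5 : 0 ≤ v ^ 5 / 120 - v ^ 7 / 5040 := by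
      have h6 : v ^ 7 ≤ v ^ 5 := by
        have : v ^ 2 ≤ 1 := by nlinarith
        have h7 : 0 ≤ v ^ 5 := by positivity
        nlinarith
      have h7 : 0 ≤ v ^ 5 := by positivity
      linarith
    linarith
  have hk : 0.1074 ≤ 2 / √3 - π / 3 := by
    have : 1.1546 ≤ 2 / √3 := by
      rw [le_div_iff₀ (by linarith)]
      linarith
    linarith
  have e1 : cos (π / 6 - v) = √3 / 2 * cos v + 1 / 2 * sin v := by
    rw [cos_sub, cos_pi_div_six, sin_pi_div_six]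
  have hpoly := K2_poly h0 hv
  have hcv : 0 < cos v := cos_pos' h0 (by linarith)
  have hc1 : 0 ≤ 1 - cos v := by linarith [cos_le_one v]
  have c1 : 0.866025 * (1 - v ^ 2 / 2) + 1 / 2 * (v - v ^ 3 / 6) ≤ cos (π / 6 - v) := by
    rw [e1]
    have : 0.866025 * (1 - v ^ 2 / 2) ≤ √3 / 2 * cos v := by
      apply mul_le_mul (by linarith) a2 _ (by linarith)
      nlinarith
    linarith
  have c0 : 0 ≤ 0.866025 * (1 - v ^ 2 / 2) + 1 / 2 * (v - v ^ 3 / 6) := by
    have : v ^ 2 ≤ 1 := by nlinarith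
    have : v ^ 3 ≤ v := by nlinarith
    linarith
  have c2 := mul_le_mul hk c1 c0 (by linarith)
  have c3 : v * (v - v ^ 3 / 6) ≤ v * sin v := mul_le_mul_of_nonneg_left a4 h0
  have e2 : cos (π / 6 - v) - cos (π / 6) = 1 / 2 * sin v - √3 / 2 * (1 - cos v) := by
    rw [e1, cos_pi_div_six]; ring
  have c4 : cos (π / 6 - v) - cos (π / 6) ≤ 1 / 2 * (v - v ^ 3 / 6 + v ^ 5 / 120) -
        0.866025 * (v ^ 2 / 2 - v ^ 4 / 24) := by
    rw [e2]
    have : 0.866025 * (v ^ 2 / 2 - v ^ 4 / 24) ≤ √3 / 2 * (1 - cos v) := by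
      apply mul_le_mul (by linarith) (by linarith) _ (by linarith)
      have : v ^ 4 ≤ v ^ 2 := by nlinarith [sq_nonneg v]
      nlinarith [sq_nonneg v]
    linarith
  have c5 : 0 ≤ 1 / 2 * (v - v ^ 3 / 6 + v ^ 5 / 120) -
        0.866025 * (v ^ 2 / 2 - v ^ 4 / 24) := by
    refine le_trans ?_ c4
    have : cos (π / 6) ≤ cos (π / 6 - v) :=
      cos_le_cos_of_nonneg_of_le_pi (by linarith) (by linarith) (by linarith)
    linarith
  have c6 : (√3 - 1 + 2 * v) * (cos (π / 6 - v) - cos (π / 6)) ≤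
      (0.73206 + 2 * v) * (1 / 2 * (v - v ^ 3 / 6 + v ^ 5 / 120) -
        0.866025 * (v ^ 2 / 2 - v ^ 4 / 24)) := by
    refine le_trans (mul_le_mul_of_nonneg_left c4 (by linarith)) ?_
    exact mul_le_mul_of_nonneg_right (by linarith) c5
  linarith only [hpoly, c2, c3, c6]

theorem K2 {sg ta W : ℝ} (h0 : 0 ≤ sg) (h1 : sg ≤ ta) (h2 : ta ≤ π / 6)
    (hW : W ≤ π / 6 - sg + (π / 6 + √3 - 1)) : 1 / 250 ≤ KK sg ta W := by
  have hp := pi6_hi
  have hpp := pi_pos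
  have h3 := s3_lo'
  have h3' := s3_hi'
  have hcc : cos ta ≤ cos sg := cos_le_cos_of_nonneg_of_le_pi h0 (by linarith) h1
  -- step 1
  set w := (ta - sg) / 2 with hw
  have hw0 : 0 ≤ w := by rw [hw]; linarith
  have hb : 0 < cos (π / 6) := cos_pos' (by linarith) (by linarith)
  have hc : 0 < cos (π / 6 + w) := cos_pos' (by linarith) (by linarith)
  have hsv : 0 ≤ sin (π / 6 - sg) := sin_nonneg_of_nonneg_of_le_pi (by linarith) (by linarith)
  have hsw : 0 ≤ sin w := sin_nonneg_of_nonneg_of_le_pi hw0 (by linarith)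
  have k1 : 2 / √3 * cos sg + 2 / 3 * sin (π / 6 - sg) * (ta - sg) ≤ soft sg ta := by
    have := soft_diff (a := sg) (b := π / 6) (c' := w) hb.ne' hc.ne'
    have e : soft sg ta = cos (sg + w) / cos (π / 6 + w) := by
      rw [soft, hw]; congr 2; ring
    have e1 : cos sg / cos (π / 6) = 2 / √3 * cos sg := by
      rw [cos_pi_div_six]; field_simp
    have h5 : 4 / 3 * w ≤ sin w / (cos (π / 6) * cos (π / 6 + w)) := by
      rw [le_div_iff₀ (mul_pos hb hc), cos_add, cos_pi_div_six, sin_pi_div_six]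
      have h6 := x_cos_le hw0 (by linarith)
      have h7 : 0 ≤ √3 * (w * sin w) := mul_nonneg (by linarith) (mul_nonneg hw0 hsw)
      have h8 := s3_sq
      have e2 : 4 / 3 * w * (√3 / 2 * (√3 / 2 * cos w - 1 / 2 * sin w)) =
          (√3 * √3) / 3 * (w * cos w) - √3 * (w * sin w) / 3 := by ring
      rw [e2, h8]
      linarith
    have h6 : sin (π / 6 - sg) * (4 / 3 * w) ≤ sin (π / 6 - sg) * sin w /
        (cos (π / 6) * cos (π / 6 + w)) := by
      rw [mul_div_assoc]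
      exact mul_le_mul_of_nonneg_left h5 hsv
    rw [e, ← e1]
    have h7 : sin (π / 6 - sg) * (4 / 3 * w) = 2 / 3 * sin (π / 6 - sg) * (ta - sg) := by
      rw [hw]; ring
    linarith
  -- step 2
  have k2 : (ta - sg) * cos ta ≤ sin ta - sin sg := by
    have e : sin ta - sin sg = 2 * sin w * cos ((ta + sg) / 2) := sin_sub_sin ta sg
    have h6 := x_cos_le hw0 (by linarith)
    have hcm : 0 ≤ cos ((ta + sg) / 2) := (cos_pos' (by linarith) (by linarith)).le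
    have h7 : cos ta ≤ cos w * cos ((ta + sg) / 2) := by
      have e1 : cos ta = cos w * cos ((ta + sg) / 2) - sin w * sin ((ta + sg) / 2) := by
        rw [← cos_add]; congr 1; rw [hw]; ring
      have : 0 ≤ sin w * sin ((ta + sg) / 2) :=
        mul_nonneg hsw (sin_nonneg_of_nonneg_of_le_pi (by linarith) (by linarith))
      linarith
    have h8 : w * cos w * cos ((ta + sg) / 2) ≤ sin w * cos ((ta + sg) / 2) :=
      mul_le_mul_of_nonneg_right h6 hcm
    have h9 : w * cos ta ≤ w * (cos w * cos ((ta + sg) / 2)) := mul_le_mul_of_nonneg_left h7 hw0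
    have e3 : (ta - sg) * cos ta = 2 * (w * cos ta) := by rw [hw]; ring
    rw [e, e3]
    linarith
  -- step 3
  have k3 : 1 / 250 ≤ (2 / √3 - π / 3) * cos sg + 2 / 3 * sin (π / 6 - sg) * (ta - sg) -
      (π / 6 + (π / 6 + √3 - 1) - 2 * sg) * (cos sg - cos ta) := by
    have hf : ConcaveOn ℝ (Set.Icc sg (π / 6)) (fun a =>
        (π / 6 + (π / 6 + √3 - 1) - 2 * sg) * cos a + (2 / 3 * sin (π / 6 - sg) * a +
        ((2 / √3 - π / 3) * cos sg - 2 / 3 * sin (π / 6 - sg) * sg -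
        (π / 6 + (π / 6 + √3 - 1) - 2 * sg) * cos sg - 1 / 250))) :=
      ((concave_cos h0 le_rfl).smul (by linarith :
        (0 : ℝ) ≤ π / 6 + (π / 6 + √3 - 1) - 2 * sg)).add (concave_lin _ _ _ _)
    have := nonneg_of_concave hf ?_ ?_ h1 h2
    · linarith
    · have hk : 0.1074 ≤ 2 / √3 - π / 3 := by
        have : 1.1546 ≤ 2 / √3 := by
          rw [le_div_iff₀ (by linarith)]
          linarith
        linarith
      have hcs : 0.866 ≤ cos sg := by
        have : cos (π / 6) ≤ cos sg := cos_le_cos_of_nonneg_of_le_pi h0 (by linarith) (by linarith)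
        rw [cos_pi_div_six] at this
        linarith
      have : 0.1074 * 0.866 ≤ (2 / √3 - π / 3) * cos sg :=
        mul_le_mul hk hcs (by norm_num) (by linarith)
      linarith
    · have h5 := K2_end (v := π / 6 - sg) (by linarith) (by linarith)
      have e1 : π / 6 - (π / 6 - sg) = sg := by ring
      rw [e1] at h5
      have e2 : √3 - 1 + 2 * (π / 6 - sg) = π / 6 + (π / 6 + √3 - 1) - 2 * sg := by ring
      rw [e2] at h5
      linarith
  have k4 : (π / 6 - sg + (π / 6 + √3 - 1)) * (cos ta - cos sg) ≤ W * (cos ta - cos sg) := by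
    have := mul_nonneg (sub_nonneg.2 hW) (sub_nonneg.2 hcc)
    linarith
  rw [KK]
  linarith

/-! ### three gaps -/

theorem fT_comm (c x y : ℝ) : fT c x y = fT c y x := by
  rw [fT, fT]
  have e1 : cos ((x - y) / 2) = cos ((y - x) / 2) := by
    rw [← cos_neg]; congr 1; ring
  have e2 : (x + y) / 2 = (y + x) / 2 := by ring
  rw [e1, e2]
  ring

/-- the function of the half difference is nonincreasing -/
theorem anti_psi {F a d m : ℝ} (ha : 0 ≤ a) (hF : 4 * a ≤ F) (hd : 0 ≤ d) (hdm : d ≤ m)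
    (hm : m ≤ π / 2) : F * cos m + 2 * a * (m * sin m) ≤ F * cos d + 2 * a * (d * sin d) := by
  have hanti : AntitoneOn (fun x => F * cos x + 2 * a * (x * sin x)) (Set.Icc 0 (π / 2)) := by
    apply antitoneOn_of_deriv_nonpos (convex_Icc _ _)
    · fun_prop
    · fun_prop
    · intro x hx
      rw [interior_Icc] at hx
      have h1 : HasDerivAt (fun x => F * cos x + 2 * a * (x * sin x))
          (F * (-sin x) + 2 * a * (1 * sin x + x * cos x)) x :=
        ((hasDerivAt_cos x).const_mul F).add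
          ((((hasDerivAt_id x).mul (hasDerivAt_sin x))).const_mul (2 * a))
      rw [h1.deriv]
      have h2 := x_cos_le hx.1.le hx.2.le
      have h3 : 0 ≤ sin x := sin_nonneg_of_nonneg_of_le_pi hx.1.le (by linarith [hx.2, pi_pos])
      have h4 : a * (x * cos x) ≤ a * sin x := mul_le_mul_of_nonneg_left h2 ha
      have h5 : 4 * a * sin x ≤ F * sin x := mul_le_mul_of_nonneg_right hF h3
      linarith
  exact hanti ⟨hd, hdm.trans hm⟩ ⟨hd.trans hdm, hm⟩ hdm

theorem fT_eq (c s d : ℝ) : fT c (s + d) (s - d) =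
    (1 / cos (π / 6 + s) + 2 * (π / 3 + c) * cos s + 2 * (sin s - s * cos s)) * cos d +
      2 * sin s * (d * sin d) - π / 3 - 2 * (π / 3 + c) := by
  rw [fT]
  have e1 : (s + d - (s - d)) / 2 = d := by ring
  have e2 : (s + d + (s - d)) / 2 = s := by ring
  rw [e1, e2, cos_add s d, cos_sub s d, sin_add s d, sin_sub s d]
  ring

theorem fT_mono {c s d m : ℝ} (hc : 1 ≤ c) (hs : 0 ≤ s) (hs' : s ≤ π / 6) (hd : 0 ≤ d)
    (hdm : d ≤ m) (hm : m ≤ π / 6) : fT c (s + m) (s - m) ≤ fT c (s + d) (s - d) := by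
  have hp := pi6_hi
  have hp' := pi6_lo
  have hpp := pi_pos
  rw [fT_eq, fT_eq]
  have h1 : 0 ≤ sin s := sin_nonneg_of_nonneg_of_le_pi hs (by linarith)
  have h2 : sin s ≤ 1 / 2 := by
    rw [← sin_pi_div_six]
    exact sin_le_sin_of_le_of_le_pi_div_two (by linarith) (by linarith) hs'
  have h3 : 0.866 ≤ cos s := by
    have : cos (π / 6) ≤ cos s := cos_le_cos_of_nonneg_of_le_pi hs (by linarith) hs'
    rw [cos_pi_div_six] at this
    linarith [s3_lo]
  have h4 : 0 < cos (π / 6 + s) := cos_pos' (by linarith) (by linarith)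
  have h5 := x_cos_le hs (by linarith)
  have h6 : 2 ≤ 2 * (π / 3 + c) * cos s := by nlinarith
  have h7 : 0 < 1 / cos (π / 6 + s) := by positivity
  have := anti_psi (F := 1 / cos (π / 6 + s) + 2 * (π / 3 + c) * cos s + 2 * (sin s - s * cos s))
    h1 (by linarith) hd hdm (by linarith)
  linarith

theorem sin_half_ge {x : ℝ} (h0 : 0 ≤ x) (hv : x ≤ 0.5236) : 0.494 * x ≤ sin (x / 2) := by
  have h1 := sin_ge7 (x := x / 2) (by linarith)
  have h6 : 0 ≤ 0.006 - x ^ 2 / 48 + x ^ 4 / 3840 - x ^ 6 / 645120 := by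
    have : x ^ 2 ≤ 0.5236 ^ 2 := pow_le_pow_left₀ h0 hv 2
    have : x ^ 6 ≤ 0.5236 ^ 6 := pow_le_pow_left₀ h0 hv 6
    have : 0 ≤ x ^ 4 := by positivity
    norm_num at *
    linarith
  have h7 := mul_nonneg h0 h6
  linarith

theorem pw_bd {x : ℝ} (h0 : 0 ≤ x) (hv : x ≤ 0.5236) :
    0 ≤ x ^ 3 ∧ 0 ≤ x ^ 4 ∧ 0 ≤ x ^ 5 ∧ x ^ 5 ≤ 0.28 * x ^ 3 ∧ x ^ 6 ≤ 0.28 * x ^ 4 ∧
      x ^ 7 ≤ 0.28 * x ^ 5 := by
  have h3 : 0 ≤ x ^ 3 := by positivity
  have h4 : 0 ≤ x ^ 4 := by positivity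
  have h5 : 0 ≤ x ^ 5 := by positivity
  have h2 : x ^ 2 ≤ 0.28 := by nlinarith
  refine ⟨h3, h4, h5, ?_, ?_, ?_⟩
  · nlinarith
  · nlinarith
  · nlinarith

theorem g1_nonneg {c x : ℝ} (hc : c ≤ π / 6 + √3 - 1) (h0 : 0 ≤ x) (h1 : x ≤ π / 6) :
    1 / 250 ≤ fT c x 0 := by
  have hp := pi6_hi
  have hpp := pi_pos
  have h3 := s3_lo'
  have h3' := s3_hi'
  have hv : x ≤ 0.5236 := by linarith
  have hb : 0 < cos (π / 6) := cos_pos' (by linarith) (by linarith)
  have hcc : 0 < cos (π / 6 + x / 2) := cos_pos' (by linarith) (by linarith)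
  have hsd := soft_diff (a := 0) (b := π / 6) (c' := x / 2) hb.ne' hcc.ne'
  rw [zero_add, sub_zero, cos_zero, sin_pi_div_six] at hsd
  have hS := sin_half_ge h0 hv
  have hS0 : 0 ≤ sin (x / 2) := by linarith
  have k1 : 0.3292 * x + 0.09 * x ^ 2 ≤
      1 / 2 * sin (x / 2) / (cos (π / 6) * cos (π / 6 + x / 2)) := by
    rw [le_div_iff₀ (mul_pos hb hcc), cos_add, cos_pi_div_six, sin_pi_div_six]
    have hc1 := cos_le_one (x / 2)
    have h4 : √3 / 2 * (√3 / 2 * cos (x / 2) - 1 / 2 * sin (x / 2)) ≤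
        3 / 4 - 0.433 * sin (x / 2) := by
      have h5 := s3_sq
      have h6 : √3 * sin (x / 2) ≥ 1.732 * sin (x / 2) :=
        mul_le_mul_of_nonneg_right (by linarith) hS0
      have e : √3 / 2 * (√3 / 2 * cos (x / 2) - 1 / 2 * sin (x / 2)) =
          (√3 * √3) / 4 * cos (x / 2) - √3 * sin (x / 2) / 4 := by ring
      rw [e, h5]
      linarith
    have hx2 : 0 ≤ 0.3292 * x + 0.09 * x ^ 2 := by positivity
    have h7 := mul_le_mul_of_nonneg_left h4 hx2
    refine h7.trans ?_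
    have h8 : 0 ≤ 1 / 2 + 0.433 * (0.3292 * x + 0.09 * x ^ 2) := by positivity
    have h9 := mul_le_mul_of_nonneg_right hS h8
    have h10 : 0 ≤ x ^ 2 := by positivity
    have h11 : 0 ≤ x ^ 3 := by positivity
    linarith only [h9, h10, h11, h0]
  have k2 : 1.1546 ≤ 1 / cos (π / 6) := by
    rw [cos_pi_div_six, le_div_iff₀ (by linarith)]
    linarith
  have a2 := cos_ge6 h0
  have a3 := cos_le4 h0
  have a4 := sin_ge7 h0
  have k3 : (π / 3 + c) * (1 - cos x) ≤ 2.3031 * (x ^ 2 / 2 - x ^ 4 / 24 + x ^ 6 / 720) := by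
    have h4 : (π / 3 + c) * (1 - cos x) ≤ 2.3031 * (1 - cos x) :=
      mul_le_mul_of_nonneg_right (by linarith) (by linarith [cos_le_one x])
    linarith
  have k4 := mul_le_mul_of_nonneg_left a3 h0
  have e : fT c x 0 = cos (x / 2) / cos (π / 6 + x / 2) - π / 3 - (π / 3 + c) * (1 - cos x) +
      (sin x - x * cos x) := by
    rw [fT, sub_zero, add_zero, cos_zero, sin_zero]; ring
  rw [e]
  have p1 : 0 ≤ x * (0.5236 - x) := mul_nonneg h0 (by linarith)
  have p2 : 0 ≤ (x - 0.5236) ^ 2 * (x + 1.0472) := by positivity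
  obtain ⟨p3, p4, p55, p5, p6, p7⟩ := pw_bd h0 hv
  have q1 : cos (x / 2) / cos (π / 6 + x / 2) ≥ 1.1546 + (0.3292 * x + 0.09 * x ^ 2) := by linarith
  have q2 : π / 3 ≤ 1.0472 := by linarith
  linarith only [q1, q2, k3, k4, a4, p1, p2, p3, p4, p55, p5, p6, p7, h0, hv]

theorem g2_nonneg {c y : ℝ} (hc : c ≤ π / 6 + √3 - 1) (h0 : 0 ≤ y) (h1 : y ≤ π / 6) :
    1 / 250 ≤ fT c (π / 6) y := by
  have hp := pi6_hi
  have hpp := pi_pos
  have h3 := s3_lo'
  have h3' := s3_hi'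
  have hv : y ≤ 0.5236 := by linarith
  have hb : 0 < cos (π / 4) := cos_pos' (by linarith) (by linarith)
  have hcc : 0 < cos (π / 4 + y / 2) := cos_pos' (by linarith) (by linarith)
  have hsd := soft_diff' (a := π / 12) (b := π / 4) (c' := y / 2) hb.ne' hcc.ne'
  have e1 : π / 12 + π / 4 = π / 3 := by ring
  have e2 : cos (π / 12) / cos (π / 4) = (√3 + 1) / 2 := by
    have : π / 12 = π / 4 - π / 6 := by ring
    rw [this, cos_sub, cos_pi_div_four, sin_pi_div_four, cos_pi_div_six, sin_pi_div_six]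
    have h2 : (√2 : ℝ) ≠ 0 := by positivity
    field_simp
  rw [e1, e2, sin_pi_div_three] at hsd
  have hS := sin_half_ge h0 hv
  have hS0 : 0 ≤ sin (y / 2) := by linarith
  have k1 : √3 * sin (y / 2) ≤
      √3 / 2 * sin (y / 2) / (cos (π / 4) * cos (π / 4 + y / 2)) := by
    rw [le_div_iff₀ (mul_pos hb hcc)]
    have h4 : cos (π / 4 + y / 2) ≤ cos (π / 4) :=
      cos_le_cos_of_nonneg_of_le_pi (by linarith) (by linarith) (by linarith)
    have h5 : cos (π / 4) * cos (π / 4 + y / 2) ≤ 1 / 2 := by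
      have h6 : cos (π / 4) * cos (π / 4) = 1 / 2 := by
        rw [cos_pi_div_four]
        have : √2 * √2 = 2 := Real.mul_self_sqrt (by norm_num)
        linarith
      rw [← h6]
      exact mul_le_mul_of_nonneg_left h4 hb.le
    have h7 := mul_le_mul_of_nonneg_left h5 (mul_nonneg (by linarith : 0 ≤ √3) hS0)
    linarith
  have k2 : 0.855 * y ≤ √3 * sin (y / 2) := by
    have := mul_le_mul h3.le hS (by linarith) (by linarith)
    linarith
  have a2 := one_sub_sq_div_two_le_cos (x := y)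
  have a5 := x_cos_le h0 (by linarith)
  have k3 : (π / 3 + c) * (2 - √3 / 2 - cos y) ≤ 2.3031 * (1 - 0.866 + y ^ 2 / 2) := by
    have h4 : (π / 3 + c) * (2 - √3 / 2 - cos y) ≤ 2.3031 * (2 - √3 / 2 - cos y) :=
      mul_le_mul_of_nonneg_right (by linarith) (by linarith [cos_le_one y])
    linarith
  have k4 : π / 6 * (√3 / 2) ≤ 0.5236 * 0.86603 :=
    mul_le_mul hp.le (by linarith) (by linarith) (by norm_num)
  have e : fT c (π / 6) y = cos (π / 12 - y / 2) / cos (π / 4 + y / 2) - π / 3 -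
      (π / 3 + c) * (2 - √3 / 2 - cos y) + (1 / 2 - π / 6 * (√3 / 2)) + (sin y - y * cos y) := by
    rw [fT, cos_pi_div_six, sin_pi_div_six]
    have e3 : (π / 6 - y) / 2 = π / 12 - y / 2 := by ring
    have e4 : π / 6 + (π / 6 + y) / 2 = π / 4 + y / 2 := by ring
    rw [e3, e4]
  rw [e]
  have p1 : 0 ≤ y * (0.5236 - y) := mul_nonneg h0 (by linarith)
  linarith

theorem fT_margin' {c x y : ℝ} (hc1 : 1 ≤ c) (hc : c ≤ π / 6 + √3 - 1) (hy : 0 ≤ y) (hyx : y ≤ x)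
    (hx : x ≤ π / 6) : 1 / 250 ≤ fT c x y := by
  set s := (x + y) / 2 with hs
  set d := (x - y) / 2 with hd
  have ex : x = s + d := by rw [hs, hd]; ring
  have ey : y = s - d := by rw [hs, hd]; ring
  rcases le_total s (π / 12) with h | h
  · have h2 := fT_mono (c := c) (s := s) (d := d) (m := s) hc1 (by linarith) (by linarith)
      (by linarith) (by linarith) (by linarith)
    have h3 := g1_nonneg (c := c) (x := s + s) hc (by linarith) (by linarith)
    rw [sub_self] at h2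
    rw [ex, ey]
    linarith
  · have h2 := fT_mono (c := c) (s := s) (d := d) (m := π / 6 - s) hc1 (by linarith) (by linarith)
      (by linarith) (by linarith) (by linarith)
    have e : s + (π / 6 - s) = π / 6 := by ring
    rw [e] at h2
    have h3 := g2_nonneg (c := c) (y := s - (π / 6 - s)) hc (by linarith) (by linarith)
    rw [ex, ey]
    linarith

theorem fT_margin {c : ℝ} (hc1 : 1 ≤ c) (hc : c ≤ π / 6 + √3 - 1) :
    ∀ x y, 0 ≤ x → x ≤ π / 6 → 0 ≤ y → y ≤ π / 6 → 1 / 250 ≤ fT c x y := by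
  intro x y hx hx' hy hy'
  rcases le_total y x with h | h
  · exact fT_margin' hc1 hc hy h hx'
  · rw [fT_comm]
    exact fT_margin' hc1 hc hx h hy'

end HsI
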