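import Pool.Agent.W_8c5d11_h26.Ineq
import Pool.Agent.W_8c5d11_h65.Split
import Pool.Agent.W_8c5d11_v22.Top

/-!
MP_8c5d11_gt: the inequalities `Kl`, `Kr`, `I4`, `fT_nonneg` with the margin `1 / 250`.
-/

set_option autoImplicit false

open scoped Real

namespace Pool.Agent.W_8c5d11_h26

open Pool.Agent.W_8c5d11_v22 Pool.Agent.W_8c5d11_h65

theorem Kf_eq (s y W : ℝ) : Kf s y W = HsI.KK s y W := rfl

theorem fT_eq (c x y : ℝ) : fT c x y = HsI.fT c x y := rfl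

theorem Klm : ∀ s y W : ℝ, 0 ≤ y → y ≤ s → s ≤ π / 6 → 0 ≤ W → 1 / 250 ≤ Kf s y W := by
  intro s y W h0 h1 h2 h3
  rw [Kf_eq]
  exact HsI.K1 h0 h1 h2 h3

theorem Krm : ∀ s y W : ℝ, 0 ≤ s → s ≤ y → y ≤ π / 6 →
    W ≤ π / 6 - s + (π / 6 + Real.sqrt 3 - 1) → 1 / 250 ≤ Kf s y W := by
  intro s y W h0 h1 h2 h3
  rw [Kf_eq]
  exact HsI.K2 h0 h1 h2 h3

theorem I4m : ∀ s c : ℝ, 0 ≤ s → s ≤ π / 6 → 1 ≤ c →
    1 / 250 ≤ 1 + π / 6 - s + c - Real.sin s - (π / 3 - s + c) * Real.cos s := by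
  intro s c h0 h1 h2
  have := HsI.I4 (c := c) (by linarith) h0 h1
  linarith

/-- The inequality for three gaps, with a margin. -/
theorem fT_m {c : ℝ} (hc1 : 1 ≤ c) (hc : c ≤ π / 6 + Real.sqrt 3 - 1) :
    ∀ x y, 0 ≤ x → x ≤ π / 6 → 0 ≤ y → y ≤ π / 6 → 1 / 250 ≤ fT c x y := by
  intro x y h1 h2 h3 h4
  rw [fT_eq]
  exact HsI.fT_margin hc1 hc x y h1 h2 h3 h4

end Pool.Agent.W_8c5d11_h26
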